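import Mathlib

set_option autoImplicit false
set_option maxHeartbeats 4000000

/-!
# MP_582e4a_co: the complete graph has the largest trace of the average mixing matrix

For a connected graph `G` on `n` vertices with adjacency matrix `A = ∑ θ, θ • E θ` (spectral
decomposition, `E θ` the projection onto the `θ`-eigenspace) the average mixing matrix of the
continuous quantum walk is `∑ θ, E θ ∘ E θ`. We prove that its trace is at most
`(n² - 2n + 2)/n`, the value for the complete graph `K_n`; this settles Q1 affirmatively.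

Outline of the proof.  Let `λ` be the largest eigenvalue, with the unit Perron vector `x > 0`, so
that `E_λ = x xᵀ`, put `y_v = x_v²`, and let `p_θ = (E θ)_{vv}` for `θ ≠ λ`.  With `m` edges put
`τ = 2m - λ²`.

* Since `∑ θ² tr E_θ = 2m`, two distinct eigenvalues `θ, θ' ≠ λ` satisfy `θ² + θ'² ≤ τ`, so
  `(θ - θ')² ≤ 2τ`.  On the other hand `∑_{θ,θ'} p_θ p_θ' (θ - θ')²` is
  `2 ((∑ p_θ)(∑ θ² p_θ) - (∑ θ p_θ)²) = 2 ((1 - y_v)(d_v - λ² y_v) - λ² y_v²)
  = 2 (d_v (1 - y_v) - λ² y_v)`.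
  Hence `τ ∑ p_θ² ≤ τ (1 - y_v)² - d_v (1 - y_v) + λ² y_v`; adding `τ y_v²` and summing over
  `v` gives `τ tr M ≤ τ (n - 3 + 2 ∑ y_v²) + ∑ d_v y_v`.
* `τ ≥ n - 1` (Hong), so it is enough to show `∑ d_v y_v + 2 (n - 1) ∑ y_v² ≤ n + 1 - 2/n`.
* With `a = y_c` the largest entry of `y`, `R = ∑_{v ≠ c} x_v`, one has
  `∑ d_v y_v ≤ 1 - a + R²` (`D_le`), `a ≤ 1/2` (`sq_le_half`), and
  `y_c + y_e ≤ 3/4` for `n ≥ 4` (`pair_le`).
* The remaining inequality about unit vectors (`vec_ge_four`, `vec_ge_two`) follows from the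
  Cauchy-Schwarz inequality with weights `1 - 2 y_v` and the elementary inequality `key`.
-/

namespace Pool.Agent.Results.MP_582e4a_co.AverageMixingTrace

open Finset

/-! ### An inequality for unit vectors -/

/-- The elementary inequality used pointwise. -/
lemma key {a b y T : ℝ} (hT : T = 1 - a - b) (hy0 : 0 ≤ y) (hyb : y ≤ b) (hba : b ≤ a)
    (ha : a ≤ 1 / 2) (hab : a + b ≤ 3 / 4) (hyT : y ≤ T) :
    b ^ 2 + 2 * (y * (T - y)) ≤ (3 - 4 * a) / 8 := by
  subst hT
  rcases le_total y (1 / 4) with h | h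
  · rcases le_total b (1 / 4) with h2 | h2
    · -- worst case a = 1/2
      nlinarith [mul_nonneg (sub_nonneg.2 h) (sub_nonneg.2 ha), mul_nonneg hy0 (sub_nonneg.2 hyb),
        mul_nonneg (le_trans hy0 hyb) (sub_nonneg.2 h2), sq_nonneg (y - b / 2),
        sq_nonneg (y - (1/2 - b)/2), mul_nonneg hy0 (sub_nonneg.2 h2), sq_nonneg (b - 1/6)]
    · nlinarith [mul_nonneg (sub_nonneg.2 h) (sub_nonneg.2 hab), mul_nonneg hy0 (sub_nonneg.2 hyb),
        sq_nonneg (y - 1/8), mul_nonneg (sub_nonneg.2 h2) (sub_nonneg.2 hba)]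
  · nlinarith [mul_nonneg (sub_nonneg.2 h) (sub_nonneg.2 hba), mul_nonneg (sub_nonneg.2 hyb) (sub_nonneg.2 h),
      sq_nonneg (y - 1/4), mul_nonneg hy0 (sub_nonneg.2 hyT), mul_nonneg (sub_nonneg.2 hba) (sub_nonneg.2 hab),
      mul_nonneg (sub_nonneg.2 hyb) (sub_nonneg.2 hab)]

variable {V : Type*} [Fintype V] [DecidableEq V]

lemma vec_ge_four (x : V → ℝ) (hx : ∀ v, 0 ≤ x v) (hs : ∑ v, x v ^ 2 = 1) (c e : V)
    (hce : e ≠ c) (hec : x e ≤ x c) (hmax : ∀ v, v ≠ c → x v ≤ x e) (ha : x c ^ 2 ≤ 1 / 2)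
    (hab : x c ^ 2 + x e ^ 2 ≤ 3 / 4) (hn : 4 ≤ Fintype.card V) :
    (∑ v ∈ univ.erase c, x v) ^ 2 + 2 * ((Fintype.card V : ℝ) - 1) * ∑ v, (x v ^ 2) ^ 2 ≤
      Fintype.card V + x c ^ 2 - 2 / Fintype.card V := by
  classical
  set n : ℝ := (Fintype.card V : ℝ) with hnn
  have hn4 : (4 : ℝ) ≤ n := by rw [hnn]; exact_mod_cast hn
  set y : V → ℝ := fun v => x v ^ 2 with hy
  have hy0 : ∀ v, 0 ≤ y v := fun v => sq_nonneg _
  set a := y c with hadef
  set b := y e with hbdef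
  have hba : b ≤ a := by
    simp only [hbdef, hadef, hy]; exact pow_le_pow_left₀ (hx e) hec 2
  have hymax : ∀ v, v ≠ c → y v ≤ b := by
    intro v hv; simp only [hbdef, hy]; exact pow_le_pow_left₀ (hx v) (hmax v hv) 2
  have ha' : a ≤ 1 / 2 := ha
  have hab' : a + b ≤ 3 / 4 := hab
  have hb0 : 0 ≤ b := hy0 e
  set O : Finset V := univ.erase c with hO
  set Z : Finset V := O.erase e with hZ
  have heO : e ∈ O := by simp [hO, hce]
  have hOsum : ∀ f : V → ℝ, ∑ v, f v = f c + ∑ v ∈ O, f v := by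
    intro f; rw [hO, ← Finset.add_sum_erase univ f (mem_univ c)]
  have hZsum : ∀ f : V → ℝ, ∑ v ∈ O, f v = f e + ∑ v ∈ Z, f v := by
    intro f; rw [hZ, ← Finset.add_sum_erase O f heO]
  have hcardO : (O.card : ℝ) = n - 1 := by
    rw [hO, Finset.card_erase_of_mem (mem_univ c), Finset.card_univ, Nat.cast_sub (by omega)]
    simp [hnn]
  have hcardZ' : Z.card = Fintype.card V - 2 := by
    rw [hZ, Finset.card_erase_of_mem heO, hO, Finset.card_erase_of_mem (mem_univ c),
      Finset.card_univ]; omega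
  have hcardZ : (Z.card : ℝ) = n - 2 := by
    rw [hcardZ', Nat.cast_sub (by omega)]; simp [hnn]
  have hZmem : ∀ v ∈ Z, v ≠ c ∧ v ≠ e := by
    intro v hv
    rw [hZ, mem_erase, hO, mem_erase] at hv
    exact ⟨hv.2.1, hv.1⟩
  set g : V → ℝ := fun v => 1 / (1 - 2 * y v) with hg
  have hf : ∀ v ∈ O, 0 < 1 - 2 * y v := by
    intro v hv
    have h1 : v ≠ c := (mem_erase.1 hv).1
    have := hymax v h1
    nlinarith
  set s := ∑ v ∈ O, y v with hsdef
  set S4 := ∑ v ∈ O, y v ^ 2 with hS4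
  set K := ∑ v ∈ O, y v ^ 2 * g v with hK
  set K3 := ∑ v ∈ O, y v ^ 3 * g v with hK3
  have hs1 : a + s = 1 := by
    have := hOsum y
    rw [hsdef, hadef, ← this]; exact hs
  have hSS : ∑ v, (x v ^ 2) ^ 2 = a ^ 2 + S4 := by
    have := hOsum (fun v => y v ^ 2)
    simpa [hy] using this
  -- Cauchy-Schwarz
  have hgq : ∀ v ∈ O, g v * (1 - 2 * y v) = 1 := fun v hv =>
    one_div_mul_cancel (hf v hv).ne'
  have hCS : (∑ v ∈ O, x v) ^ 2 ≤ (∑ v ∈ O, y v * (1 - 2 * y v)) * ∑ v ∈ O, g v := by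
    apply Finset.sum_sq_le_sum_mul_sum_of_sq_le_mul
    · intro v hv; exact mul_nonneg (hy0 v) (hf v hv).le
    · intro v hv; exact (one_div_pos.2 (hf v hv)).le
    · intro v hv
      have q := hgq v hv
      have : x v ^ 2 = y v * (1 - 2 * y v) * g v := by
        have q' : y v * (1 - 2 * y v) * g v = y v * (g v * (1 - 2 * y v)) := by ring
        rw [q', q, mul_one]
      exact this.le
  have h1 : ∑ v ∈ O, y v * (1 - 2 * y v) = s - 2 * S4 := by
    rw [hsdef, hS4, Finset.mul_sum, ← Finset.sum_sub_distrib]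
    exact Finset.sum_congr rfl fun v _ => by ring
  have h2 : ∑ v ∈ O, g v = (n - 1) + 2 * s + 4 * K := by
    have : ∀ v ∈ O, g v = 1 + 2 * y v + 4 * (y v ^ 2 * g v) := by
      intro v hv
      linear_combination (1 + 2 * y v) * hgq v hv
    rw [Finset.sum_congr rfl this, Finset.sum_add_distrib, Finset.sum_add_distrib,
      ← Finset.mul_sum, ← Finset.mul_sum, Finset.sum_const, nsmul_eq_mul, mul_one, hcardO]
  have h3 : K = S4 + 2 * K3 := by
    rw [hK, hS4, hK3, Finset.mul_sum, ← Finset.sum_add_distrib]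
    refine Finset.sum_congr rfl fun v hv => ?_
    linear_combination (y v) ^ 2 * hgq v hv
  -- sums over Z
  set T := ∑ v ∈ Z, y v with hT
  set SZ := ∑ v ∈ Z, y v ^ 2 with hSZ
  set KZ := ∑ v ∈ Z, y v ^ 2 * g v with hKZ
  set K3Z := ∑ v ∈ Z, y v ^ 3 * g v with hK3Z
  have e1 : s = b + T := hZsum y
  have e2 : S4 = b ^ 2 + SZ := hZsum (fun v => y v ^ 2)
  have e3 : K = b ^ 2 * g e + KZ := hZsum (fun v => y v ^ 2 * g v)
  have e4 : K3 = b ^ 3 * g e + K3Z := hZsum (fun v => y v ^ 3 * g v)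
  have hT1 : T = 1 - a - b := by linarith
  have hTpos : 0 < T := by linarith
  set k : ℝ := n - 2 with hk
  have hk2 : 2 ≤ k := by linarith
  set h := a - T / k with hh
  have hkh : k * h = k * a - T := by rw [hh]; field_simp
  have hTka : T ≤ k * a := by
    have : T ≤ ∑ v ∈ Z, a := Finset.sum_le_sum fun v hv => (hymax v (hZmem v hv).1).trans hba
    rwa [Finset.sum_const, nsmul_eq_mul, hcardZ] at this
  have hh0 : 0 ≤ h := by
    have : 0 ≤ k * h := by rw [hkh]; linarith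
    exact nonneg_of_mul_nonneg_right this (by linarith)
  -- g T ≤ 1
  have hgT : ∀ v ∈ O, g v * T ≤ 1 := by
    intro v hv
    have h1 : v ≠ c := (mem_erase.1 hv).1
    have h2 := hymax v h1
    have h3 := hf v hv
    simp only [hg]
    rw [div_mul_eq_mul_div, one_mul, div_le_one h3]
    linarith
  have hg0 : ∀ v ∈ O, 0 ≤ g v := fun v hv => (one_div_pos.2 (hf v hv)).le
  have hZO : ∀ v ∈ Z, v ∈ O := fun v hv => mem_of_mem_erase hv
  -- (i)
  have i1 : b * K3Z ≤ b ^ 2 * KZ := by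
    rw [hK3Z, hKZ, Finset.mul_sum, Finset.mul_sum]
    refine Finset.sum_le_sum fun v hv => ?_
    have q1 := hymax v (hZmem v hv).1
    have q2 := hg0 v (hZO v hv)
    have q3 : 0 ≤ b * (y v ^ 2 * g v) := mul_nonneg hb0 (mul_nonneg (sq_nonneg _) q2)
    have q4 := mul_nonneg q3 (sub_nonneg.2 q1)
    have q5 : b ^ 2 * (y v ^ 2 * g v) - b * (y v ^ 3 * g v) =
      b * (y v ^ 2 * g v) * (b - y v) := by ring
    linarith
  -- C-S on Z
  have hSZ' : T ^ 2 ≤ k * SZ := by
    have := sq_sum_le_card_mul_sum_sq (s := Z) (f := y)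
    rwa [hcardZ] at this
  have i2a : b * T - SZ ≤ T * h := by
    have : k * (b * T - SZ) ≤ k * (T * h) := by
      have : k * (T * h) = T * (k * a - T) := by rw [← hkh]; ring
      rw [this]
      linarith [mul_nonneg hTpos.le (mul_nonneg (by linarith : (0:ℝ) ≤ k) (sub_nonneg.2 hba)), hSZ']
    exact le_of_mul_le_mul_left this (by linarith)
  have i2 : b ^ 2 * g e * (b * T - SZ) ≤ b ^ 2 * h := by
    have q1 : 0 ≤ b ^ 2 * g e := mul_nonneg (sq_nonneg _) (hg0 e heO)
    calc b ^ 2 * g e * (b * T - SZ) ≤ b ^ 2 * g e * (T * h) := mul_le_mul_of_nonneg_left i2a q1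
      _ = b ^ 2 * h * (g e * T) := by ring
      _ ≤ b ^ 2 * h * 1 := mul_le_mul_of_nonneg_left (hgT e heO) (mul_nonneg (sq_nonneg _) hh0)
      _ = b ^ 2 * h := by ring
  -- (iii)
  have hyT : ∀ v ∈ Z, y v ≤ T := fun v hv =>
    Finset.single_le_sum (f := y) (fun u _ => hy0 u) hv
  have i3a : ∀ v ∈ Z, T * y v - SZ ≤ 2 * (T - y v) * h := by
    intro v hv
    have q1 : T = y v + ∑ u ∈ Z.erase v, y u := (Finset.add_sum_erase Z y hv).symm
    have q2 : SZ = y v ^ 2 + ∑ u ∈ Z.erase v, y u ^ 2 :=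
      (Finset.add_sum_erase Z (fun u => y u ^ 2) hv).symm
    set T' := ∑ u ∈ Z.erase v, y u with hT'
    set S' := ∑ u ∈ Z.erase v, y u ^ 2 with hS'
    have q3 : ((Z.erase v).card : ℝ) = k - 1 := by
      rw [Finset.card_erase_of_mem hv, Nat.cast_sub (by rw [hcardZ']; omega), hcardZ]; simp
    have q4 : T' ^ 2 ≤ (k - 1) * S' := by
      have := sq_sum_le_card_mul_sum_sq (s := Z.erase v) (f := y)
      rwa [q3] at this
    have q5 : y v ≤ a := (hymax v (hZmem v hv).1).trans hba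
    have q6 : 0 ≤ T' := Finset.sum_nonneg fun u _ => hy0 u
    have q7 : T * y v - SZ ≤ T' * a - S' := by
      have := mul_le_mul_of_nonneg_left q5 q6
      rw [q1, q2]; linarith
    refine q7.trans ?_
    have q8 : T - y v = T' := by linarith
    rw [q8]
    have q9 : (k - 1) * (T' * a - S') ≤ T' * ((k - 1) * a - T') := by linarith
    have q10 : (k - 1) * a - T' ≤ (k - 1) * (2 * h) := by
      have r1 : k * ((k - 1) * a - T') ≤ k * ((k - 1) * (2 * h)) := by
        have : k * ((k - 1) * (2 * h)) = 2 * (k - 1) * (k * a - T) := by rw [← hkh]; ring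
        rw [this]
        have r2 : T - a ≤ T' := by linarith
        linarith [mul_nonneg (by linarith : (0:ℝ) ≤ k) (sub_nonneg.2 r2),
          mul_nonneg (by linarith : (0:ℝ) ≤ k - 2) (sub_nonneg.2 hTka)]
      exact le_of_mul_le_mul_left r1 (by linarith)
    have q11 : (k - 1) * (T' * a - S') ≤ (k - 1) * (2 * T' * h) := by
      calc (k - 1) * (T' * a - S') ≤ T' * ((k - 1) * a - T') := q9
        _ ≤ T' * ((k - 1) * (2 * h)) := mul_le_mul_of_nonneg_left q10 q6
        _ = (k - 1) * (2 * T' * h) := by ring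
    exact le_of_mul_le_mul_left q11 (by linarith)
  set κ := (3 - 4 * a) / 8 with hκ
  have i3 : T * K3Z - SZ * KZ ≤ h * (κ - b ^ 2) := by
    have r1 : T * K3Z - SZ * KZ = ∑ v ∈ Z, y v ^ 2 * g v * (T * y v - SZ) := by
      rw [hK3Z, hKZ, Finset.mul_sum, Finset.mul_sum, ← Finset.sum_sub_distrib]
      exact Finset.sum_congr rfl fun v _ => by ring
    have r2 : ∀ v ∈ Z, y v ^ 2 * g v * (T * y v - SZ) ≤ y v * (h * (κ - b ^ 2) / T) := by
      intro v hv
      have t0 := hg0 v (hZO v hv)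
      have t1 : y v ^ 2 * g v * (T * y v - SZ) ≤ y v ^ 2 * g v * (2 * (T - y v) * h) :=
        mul_le_mul_of_nonneg_left (i3a v hv) (mul_nonneg (sq_nonneg _) t0)
      have t2 : 2 * (y v * (T - y v)) ≤ κ - b ^ 2 := by
        have := key hT1 (hy0 v) (hymax v (hZmem v hv).1) hba ha' hab' (hyT v hv)
        linarith
      have t3 : g v ≤ 1 / T := by
        rw [le_div_iff₀ hTpos]; exact hgT v (hZO v hv)
      have t4 : 0 ≤ 2 * (y v * (T - y v)) :=
        mul_nonneg (by norm_num) (mul_nonneg (hy0 v) (sub_nonneg.2 (hyT v hv)))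
      calc y v ^ 2 * g v * (T * y v - SZ) ≤ y v ^ 2 * g v * (2 * (T - y v) * h) := t1
        _ = (y v * h) * (g v * (2 * (y v * (T - y v)))) := by ring
        _ ≤ (y v * h) * ((1 / T) * (κ - b ^ 2)) := by
            refine mul_le_mul_of_nonneg_left ?_ (mul_nonneg (hy0 v) hh0)
            exact mul_le_mul t3 t2 t4 (by positivity)
        _ = y v * (h * (κ - b ^ 2) / T) := by ring
    rw [r1]
    refine (Finset.sum_le_sum r2).trans ?_
    rw [← Finset.sum_mul, ← hT]
    field_simp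
    exact le_rfl
  have hP : s * K3 - S4 * K ≤ h * κ := by
    have : s * K3 - S4 * K = b ^ 2 * g e * (b * T - SZ) + (b * K3Z - b ^ 2 * KZ) +
        (T * K3Z - SZ * KZ) := by rw [e1, e2, e3, e4]; ring
    rw [this]
    linarith
  -- slack
  have hslack : 8 * (h * κ) ≤ (n * a - 1) * (1 - 2 * a + 2 / n) := by
    have s1 : n * a - 1 = k * h + (a - b) := by rw [hkh, hT1, hk]; ring
    have s2 : 0 ≤ 1 - 2 * a + 2 / n := by
      have : 0 ≤ 2 / n := by positivity
      linarith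
    have s3 : 3 - 4 * a ≤ k * (1 - 2 * a + 2 / n) := by
      have : n * (k * (1 - 2 * a + 2 / n) - (3 - 4 * a)) = (n - 4) * (n * (1 - 2 * a) + 1) := by
        rw [hk]; field_simp; ring
      have h5 : 0 ≤ n * (k * (1 - 2 * a + 2 / n) - (3 - 4 * a)) := by
        rw [this]
        exact mul_nonneg (by linarith) (by nlinarith)
      have := nonneg_of_mul_nonneg_right h5 (by linarith)
      linarith
    rw [s1]
    have s4 : 8 * (h * κ) = h * (3 - 4 * a) := by rw [hκ]; ring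
    rw [s4]
    calc h * (3 - 4 * a) ≤ h * (k * (1 - 2 * a + 2 / n)) := mul_le_mul_of_nonneg_left s3 hh0
      _ = (k * h) * (1 - 2 * a + 2 / n) := by ring
      _ ≤ (k * h + (a - b)) * (1 - 2 * a + 2 / n) :=
          mul_le_mul_of_nonneg_right (by linarith) s2
  -- final
  rw [hSS]
  have hfin : n + a - 2 / n - ((s - 2 * S4) * ((n - 1) + 2 * s + 4 * K)) -
      2 * (n - 1) * (a ^ 2 + S4) =
      (n * a - 1) * (1 - 2 * a + 2 / n) - 8 * (s * K3 - S4 * K) := by
    have hs' : s = 1 - a := by linarith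
    have hn0 : n ≠ 0 := by linarith
    have hK3' : K3 = (K - S4) / 2 := by linarith
    rw [hK3', hs']
    field_simp
    ring
  rw [h1, h2] at hCS
  have : (∑ v ∈ O, x v) ^ 2 + 2 * (n - 1) * (a ^ 2 + S4) ≤ n + a - 2 / n := by linarith
  exact this

lemma vec_ge_two (x : V → ℝ) (hx : ∀ v, 0 ≤ x v) (hs : ∑ v, x v ^ 2 = 1) (c : V)
    (hmax : ∀ v, x v ≤ x c) (ha : x c ^ 2 ≤ 1 / 2) (hn : 2 ≤ Fintype.card V)
    (hab : 4 ≤ Fintype.card V → ∀ e, e ≠ c → x c ^ 2 + x e ^ 2 ≤ 3 / 4) :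
    (∑ v ∈ univ.erase c, x v) ^ 2 + 2 * ((Fintype.card V : ℝ) - 1) * ∑ v, (x v ^ 2) ^ 2 ≤
      Fintype.card V + x c ^ 2 - 2 / Fintype.card V := by
  classical
  have hne : (univ.erase c : Finset V).Nonempty := by
    rw [← Finset.card_pos, Finset.card_erase_of_mem (mem_univ c), Finset.card_univ]; omega
  obtain ⟨e, he, hemax⟩ := Finset.exists_max_image (univ.erase c) x hne
  have hce : e ≠ c := (mem_erase.1 he).1
  have hm : ∀ v, v ≠ c → x v ≤ x e := fun v hv => hemax v (mem_erase.2 ⟨hv, mem_univ v⟩)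
  rcases Nat.lt_or_ge (Fintype.card V) 4 with h4 | h4
  swap
  · exact vec_ge_four x hx hs c e hce (hmax e) hm ha (hab h4 e hce) h4
  have hcO : (univ.erase c : Finset V).card = Fintype.card V - 1 := by
    rw [Finset.card_erase_of_mem (mem_univ c), Finset.card_univ]
  have hsum : ∀ f : V → ℝ, ∑ v, f v = f c + ∑ v ∈ univ.erase c, f v := fun f =>
    (Finset.add_sum_erase univ f (mem_univ c)).symm
  have hb : x e ^ 2 ≤ x c ^ 2 := pow_le_pow_left₀ (hx e) (hmax e) 2
  rcases (show Fintype.card V = 2 ∨ Fintype.card V = 3 by omega) with h | h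
  · have : (univ.erase c : Finset V) = {e} := by
      obtain ⟨w, hw⟩ := Finset.card_eq_one.1 (by rw [hcO, h] : (univ.erase c : Finset V).card = 1)
      rw [hw] at he ⊢
      rw [Finset.mem_singleton.1 he]
    rw [hsum, this, Finset.sum_singleton] at hs
    rw [hsum (fun v => (x v ^ 2) ^ 2), this, Finset.sum_singleton, Finset.sum_singleton, h]
    have e1 : x c ^ 2 = 1 / 2 := by linarith
    have e2 : x e ^ 2 = 1 / 2 := by linarith
    rw [e1, e2]; norm_num
  · have hz : ((univ.erase c).erase e : Finset V).card = 1 := by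
      rw [Finset.card_erase_of_mem he, hcO, h]
    obtain ⟨z, hz⟩ := Finset.card_eq_one.1 hz
    have hzO : z ∈ (univ.erase c : Finset V) := mem_of_mem_erase (by rw [hz]; simp)
    have hsum2 : ∀ f : V → ℝ, ∑ v ∈ univ.erase c, f v = f e + f z := fun f => by
      rw [← Finset.add_sum_erase _ f he, hz, Finset.sum_singleton]
    have hzc : x z ^ 2 ≤ x c ^ 2 := pow_le_pow_left₀ (hx z) (hmax z) 2
    rw [hsum, hsum2] at hs
    rw [hsum (fun v => (x v ^ 2) ^ 2), hsum2, hsum2, h]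
    set a := x c ^ 2 with hadef
    set w := x e * x z with hw
    have w0 : w ^ 2 = x e ^ 2 * x z ^ 2 := by rw [hw]; ring
    set b := x e ^ 2 with hbd
    set t := x z ^ 2 with htd
    have hR : (x e + x z) ^ 2 = b + t + 2 * w := by rw [hbd, htd, hw]; ring
    rw [hR]
    have w1 : 0 ≤ w := mul_nonneg (hx e) (hx z)
    have w2 : a * (1 - 2 * a) ≤ w ^ 2 := by
      rw [w0]; nlinarith [mul_nonneg (sub_nonneg.2 hb) (sub_nonneg.2 hzc)]
    have ht : t = 1 - a - b := by linarith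
    have ha3 : 1 / 3 ≤ a := by linarith
    have w3 : 2 * w ≤ 3 * w ^ 2 + 1 / 3 := by nlinarith [sq_nonneg (3 * w - 1)]
    have w4 : b ^ 2 + t ^ 2 = (1 - a) ^ 2 - 2 * w ^ 2 := by rw [w0, ht]; ring
    have w5 : 0 ≤ (3 * a - 1) * (1 - 2 * a) := mul_nonneg (by linarith) (by linarith)
    push_cast
    nlinarith

/-! ### Consequences of the eigenvalue equation for a nonnegative unit vector -/

section Comb

variable (A : V → V → ℝ) (hA01 : ∀ u v, A u v = 0 ∨ A u v = 1) (hAs : ∀ u v, A u v = A v u)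
  (hA0 : ∀ v, A v v = 0) (x : V → ℝ) (hx : ∀ v, 0 ≤ x v) (hs : ∑ v, x v ^ 2 = 1)
  (l : ℝ) (hev : ∀ v, ∑ u, A v u * x u = l * x v)

include hA01 in
omit [Fintype V] [DecidableEq V] in
lemma A_nonneg (u v : V) : 0 ≤ A u v := by
  rcases hA01 u v with h | h <;> rw [h] <;> norm_num

include hA01 in
omit [Fintype V] [DecidableEq V] in
lemma A_le_one (u v : V) : A u v ≤ 1 := by
  rcases hA01 u v with h | h <;> rw [h] <;> norm_num

include hA01 hAs hA0 hx hs hev in
lemma sq_le_half (hl : 0 < l) (c : V) : x c ^ 2 ≤ 1 / 2 := by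
  classical
  have h1 : l * x c ^ 2 = ∑ u ∈ univ.erase c, A c u * (x c * x u) := by
    have := hev c
    rw [← Finset.add_sum_erase univ _ (mem_univ c), hA0 c, zero_mul, zero_add] at this
    calc l * x c ^ 2 = x c * (l * x c) := by ring
      _ = x c * ∑ u ∈ univ.erase c, A c u * x u := by rw [this]
      _ = _ := by rw [Finset.mul_sum]; exact Finset.sum_congr rfl fun u _ => by ring
  have h2 : ∀ u ∈ univ.erase c, A c u * (x c * x u) ≤ l * x u ^ 2 := by
    intro u _
    have e1 : l * x u ^ 2 = x u * ∑ w, A u w * x w := by rw [hev u]; ring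
    rw [e1]
    have e2 : A u c * x c ≤ ∑ w, A u w * x w :=
      Finset.single_le_sum (f := fun w => A u w * x w)
        (fun w _ => mul_nonneg (A_nonneg A hA01 u w) (hx w)) (mem_univ c)
    calc A c u * (x c * x u) = x u * (A u c * x c) := by rw [hAs c u]; ring
      _ ≤ _ := mul_le_mul_of_nonneg_left e2 (hx u)
  have h3 : l * x c ^ 2 ≤ l * (1 - x c ^ 2) := by
    rw [h1]
    refine (Finset.sum_le_sum h2).trans ?_
    rw [← Finset.mul_sum]
    have : ∑ u ∈ univ.erase c, x u ^ 2 = 1 - x c ^ 2 := by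
      rw [← hs, ← Finset.add_sum_erase univ (fun u => x u ^ 2) (mem_univ c)]; ring
    rw [this]
  have := le_of_mul_le_mul_left h3 hl
  linarith

include hA01 hAs hA0 hx hs hev in
lemma pair_le (hl : 3 / 2 ≤ l) (c e : V) (hce : e ≠ c) : x c ^ 2 + x e ^ 2 ≤ 3 / 4 := by
  classical
  set Z := (univ.erase c).erase e with hZ
  have hsplit : ∀ f : V → ℝ, ∑ v, f v = f c + (f e + ∑ v ∈ Z, f v) := by
    intro f
    rw [hZ, Finset.add_sum_erase _ f (mem_erase.2 ⟨hce, mem_univ e⟩),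
      Finset.add_sum_erase univ f (mem_univ c)]
  have hc := hev c
  have he := hev e
  rw [hsplit, hA0 c] at hc
  rw [hsplit, hA0 e] at he
  have hz : ∀ z ∈ Z, A c z * (x c * x z) + A e z * (x e * x z) ≤ l * x z ^ 2 := by
    intro z _
    have h1 := hev z
    rw [hsplit] at h1
    have h2 : 0 ≤ ∑ v ∈ Z, A z v * x v :=
      Finset.sum_nonneg fun v _ => mul_nonneg (A_nonneg A hA01 z v) (hx v)
    have h3 : A z c * x c + A z e * x e ≤ l * x z := by linarith
    have h4 := mul_le_mul_of_nonneg_left h3 (hx z)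
    rw [hAs c z, hAs e z]
    nlinarith
  have hsum := Finset.sum_le_sum hz
  rw [Finset.sum_add_distrib, ← Finset.mul_sum] at hsum
  have h5 : ∑ z ∈ Z, A c z * (x c * x z) = x c * ∑ z ∈ Z, A c z * x z := by
    rw [Finset.mul_sum]; exact Finset.sum_congr rfl fun z _ => by ring
  have h6 : ∑ z ∈ Z, A e z * (x e * x z) = x e * ∑ z ∈ Z, A e z * x z := by
    rw [Finset.mul_sum]; exact Finset.sum_congr rfl fun z _ => by ring
  rw [h5, h6] at hsum
  have h7 : ∑ z ∈ Z, x z ^ 2 = 1 - x c ^ 2 - x e ^ 2 := by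
    have := hsplit (fun v => x v ^ 2)
    rw [hs] at this
    linarith
  rw [h7] at hsum
  have h8 : ∑ z ∈ Z, A c z * x z = l * x c - A c e * x e := by linarith
  have h9 : ∑ z ∈ Z, A e z * x z = l * x e - A e c * x c := by linarith
  rw [h8, h9, hAs e c] at hsum
  have h10 : A c e * (2 * (x c * x e)) ≤ x c ^ 2 + x e ^ 2 := by
    have q1 := A_le_one A hA01 c e
    have q2 := A_nonneg A hA01 c e
    have q3 : 0 ≤ x c * x e := mul_nonneg (hx c) (hx e)
    nlinarith [sq_nonneg (x c - x e)]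
  have h11 : (x c ^ 2 + x e ^ 2) * (2 * l - 1) ≤ l := by nlinarith
  by_contra hcon
  push Not at hcon
  nlinarith

include hA01 hAs hA0 hx hs hev in
lemma D_le (c : V) (hmax : ∀ v, x v ≤ x c) (hl : 0 < l) :
    ∑ v, (∑ u, A v u) * x v ^ 2 ≤ 1 - x c ^ 2 + (∑ v ∈ univ.erase c, x v) ^ 2 := by
  classical
  have h0 : ∑ v, (∑ u, A v u) * x v ^ 2 = ∑ v, ∑ u, A v u * x u ^ 2 := by
    have : ∑ v, (∑ u, A v u) * x v ^ 2 = ∑ v, ∑ u, A v u * x v ^ 2 :=
      Finset.sum_congr rfl fun v _ => by rw [Finset.sum_mul]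
    rw [this, Finset.sum_comm]
    exact Finset.sum_congr rfl fun v _ => Finset.sum_congr rfl fun u _ => by rw [hAs]
  rw [h0, ← Finset.add_sum_erase univ _ (mem_univ c)]
  set R := ∑ v ∈ univ.erase c, x v with hR
  have hR0 : 0 ≤ R := Finset.sum_nonneg fun v _ => hx v
  have h1 : ∑ u, A c u * x u ^ 2 ≤ 1 - x c ^ 2 := by
    rw [← Finset.add_sum_erase univ _ (mem_univ c), hA0 c, zero_mul, zero_add]
    have : ∑ u ∈ univ.erase c, x u ^ 2 = 1 - x c ^ 2 := by
      rw [← hs, ← Finset.add_sum_erase univ (fun u => x u ^ 2) (mem_univ c)]; ring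
    rw [← this]
    refine Finset.sum_le_sum fun u _ => ?_
    have q1 := A_le_one A hA01 c u
    nlinarith [sq_nonneg (x u)]
  have h2 : ∀ v ∈ univ.erase c, ∑ u, A v u * x u ^ 2 ≤ (l * x c) * x v := by
    intro v _
    calc ∑ u, A v u * x u ^ 2 ≤ ∑ u, x c * (A v u * x u) := by
          refine Finset.sum_le_sum fun u _ => ?_
          have q1 := mul_nonneg (A_nonneg A hA01 v u) (hx u)
          have q2 := mul_le_mul_of_nonneg_left (hmax u) q1
          nlinarith
      _ = (l * x c) * x v := by rw [← Finset.mul_sum, hev v]; ring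
  have h3 : l * x c ≤ R := by
    rw [← hev c, ← Finset.add_sum_erase univ _ (mem_univ c), hA0 c, zero_mul, zero_add]
    refine Finset.sum_le_sum fun u _ => ?_
    have q1 := A_le_one A hA01 c u
    nlinarith [hx u]
  have h4 : ∑ v ∈ univ.erase c, ∑ u, A v u * x u ^ 2 ≤ R ^ 2 := by
    refine (Finset.sum_le_sum h2).trans ?_
    rw [← Finset.mul_sum, ← hR]
    nlinarith [mul_le_mul_of_nonneg_right h3 hR0]
  linarith

include hA01 hAs hA0 hs hev in
/-- Hong's inequality. -/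
lemma hong (hdeg : ∀ v, 1 ≤ ∑ u, A v u) :
    l ^ 2 ≤ (∑ v, ∑ u, A v u) - ((Fintype.card V : ℝ) - 1) := by
  classical
  set d : V → ℝ := fun v => ∑ u, A v u with hd
  have h1 : ∀ v, (l * x v) ^ 2 ≤ d v * ∑ u, A v u * x u ^ 2 := by
    intro v
    rw [← hev v]
    apply Finset.sum_sq_le_sum_mul_sum_of_sq_le_mul
    · intro u _; exact A_nonneg A hA01 v u
    · intro u _; exact mul_nonneg (A_nonneg A hA01 v u) (sq_nonneg _)
    · intro u _
      rw [mul_pow, sq (A v u)]
      exact le_of_eq (by ring)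
  have h2 : l ^ 2 = ∑ v, (l * x v) ^ 2 := by
    have : ∑ v, (l * x v) ^ 2 = l ^ 2 * ∑ v, x v ^ 2 := by
      rw [Finset.mul_sum]; exact Finset.sum_congr rfl fun v _ => by ring
    rw [this, hs, mul_one]
  have h3 : ∑ v, d v * ∑ u, A v u * x u ^ 2 = ∑ u, x u ^ 2 * ∑ v, A u v * d v := by
    have : ∑ v, d v * ∑ u, A v u * x u ^ 2 = ∑ v, ∑ u, x u ^ 2 * (A u v * d v) := by
      refine Finset.sum_congr rfl fun v _ => ?_
      rw [Finset.mul_sum]
      exact Finset.sum_congr rfl fun u _ => by rw [hAs u v]; ring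
    rw [this, Finset.sum_comm]
    exact Finset.sum_congr rfl fun u _ => by rw [Finset.mul_sum]
  have h4 : ∀ u, ∑ v, A u v * d v ≤ (∑ v, d v) - ((Fintype.card V : ℝ) - 1) := by
    intro u
    have e1 : (∑ v, d v) - ∑ v, A u v * d v = ∑ v, (1 - A u v) * d v := by
      rw [← Finset.sum_sub_distrib]; exact Finset.sum_congr rfl fun v _ => by ring
    have e2 : ∑ v, (1 - A u v) * d v = d u + ∑ v ∈ univ.erase u, (1 - A u v) * d v := by
      rw [← Finset.add_sum_erase univ _ (mem_univ u), hA0 u]; ring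
    have e3 : ∑ v ∈ univ.erase u, (1 - A u v) ≤ ∑ v ∈ univ.erase u, (1 - A u v) * d v := by
      refine Finset.sum_le_sum fun v _ => ?_
      have q1 := A_le_one A hA01 u v
      have q2 := hdeg v
      have q3 : 0 ≤ (1 - A u v) * (d v - 1) := mul_nonneg (by linarith) (by simp only [hd]; linarith)
      linarith
    have e4 : ∑ v ∈ univ.erase u, (1 - A u v) = ((Fintype.card V : ℝ) - 1) - d u := by
      have q : d u = ∑ v ∈ univ.erase u, A u v := by
        simp only [hd]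
        rw [← Finset.add_sum_erase univ _ (mem_univ u), hA0 u, zero_add]
      rw [Finset.sum_sub_distrib, q, Finset.sum_const, Finset.card_erase_of_mem (mem_univ u),
        Finset.card_univ, nsmul_eq_mul, mul_one,
        Nat.cast_sub (Fintype.card_pos_iff.2 ⟨u⟩ : 1 ≤ Fintype.card V)]
      simp
    linarith
  calc l ^ 2 = ∑ v, (l * x v) ^ 2 := h2
    _ ≤ ∑ v, d v * ∑ u, A v u * x u ^ 2 := Finset.sum_le_sum fun v _ => h1 v
    _ = ∑ u, x u ^ 2 * ∑ v, A u v * d v := h3
    _ ≤ ∑ u, x u ^ 2 * ((∑ v, d v) - ((Fintype.card V : ℝ) - 1)) :=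
        Finset.sum_le_sum fun u _ => mul_le_mul_of_nonneg_left (h4 u) (sq_nonneg _)
    _ = _ := by rw [← Finset.sum_mul, hs, one_mul]

end Comb

/-! ### Spectral decompositions and the Perron vector -/

open Matrix

/-- `E θ` (`θ ∈ s`) are the spectral projections of the symmetric matrix `A`: orthogonal
projections (symmetric and idempotent), pairwise orthogonal, with sum `1`, and
`A = ∑ θ ∈ s, θ • E θ`. -/
structure IsSpectral (A : Matrix V V ℝ) (s : Finset ℝ) (E : ℝ → Matrix V V ℝ) : Prop where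
  symm : ∀ θ ∈ s, (E θ)ᵀ = E θ
  idem : ∀ θ ∈ s, E θ * E θ = E θ
  orth : ∀ θ ∈ s, ∀ θ' ∈ s, θ ≠ θ' → E θ * E θ' = 0
  sum_one : ∑ θ ∈ s, E θ = 1
  decomp : A = ∑ θ ∈ s, θ • E θ

section Spec

variable {A : Matrix V V ℝ} {s : Finset ℝ} {E : ℝ → Matrix V V ℝ} (h : IsSpectral A s E)

include h

lemma mul_E {θ : ℝ} (hθ : θ ∈ s) : A * E θ = θ • E θ := by
  rw [h.decomp, Finset.sum_mul, Finset.sum_eq_single θ]
  · rw [smul_mul_assoc, h.idem θ hθ]
  · intro θ' hθ' hne
    rw [smul_mul_assoc, h.orth θ' hθ' θ hθ hne, smul_zero]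
  · intro hn; exact absurd hθ hn

lemma quad {θ : ℝ} (hθ : θ ∈ s) (z : V → ℝ) :
    z ⬝ᵥ (E θ *ᵥ z) = (E θ *ᵥ z) ⬝ᵥ (E θ *ᵥ z) := by
  conv_rhs => rw [dotProduct_mulVec, ← mulVec_transpose, h.symm θ hθ, mulVec_mulVec, h.idem θ hθ]
  rw [dotProduct_comm]

lemma norm_eq (z : V → ℝ) : z ⬝ᵥ z = ∑ θ ∈ s, (E θ *ᵥ z) ⬝ᵥ (E θ *ᵥ z) := by
  calc z ⬝ᵥ z = z ⬝ᵥ ((1 : Matrix V V ℝ) *ᵥ z) := by rw [one_mulVec]
    _ = z ⬝ᵥ (∑ θ ∈ s, E θ *ᵥ z) := by rw [← h.sum_one, Matrix.sum_mulVec]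
    _ = ∑ θ ∈ s, z ⬝ᵥ (E θ *ᵥ z) := by rw [dotProduct_sum]
    _ = _ := Finset.sum_congr rfl fun θ hθ => quad h hθ z

lemma form_eq (z : V → ℝ) :
    z ⬝ᵥ (A *ᵥ z) = ∑ θ ∈ s, θ * ((E θ *ᵥ z) ⬝ᵥ (E θ *ᵥ z)) := by
  conv_lhs => rw [h.decomp]
  rw [Matrix.sum_mulVec, dotProduct_sum]
  refine Finset.sum_congr rfl fun θ hθ => ?_
  rw [smul_mulVec, dotProduct_smul, quad h hθ z, smul_eq_mul]

lemma sum_mulVec_eq (z : V → ℝ) : ∑ θ ∈ s, E θ *ᵥ z = z := by
  rw [← Matrix.sum_mulVec, h.sum_one, one_mulVec]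

end Spec

lemma dot_self_nonneg (z : V → ℝ) : 0 ≤ z ⬝ᵥ z :=
  Finset.sum_nonneg fun v _ => mul_self_nonneg (z v)

/-- The Perron eigenvalue and eigenvector of a connected graph, and the projection onto its
eigenspace. -/
lemma perron (G : SimpleGraph V) [DecidableRel G.Adj] (hG : G.Connected) {s : Finset ℝ}
    {E : ℝ → Matrix V V ℝ} (h : IsSpectral (G.adjMatrix ℝ) s E) :
    ∃ l ∈ s, ∃ x : V → ℝ, (∀ v, 0 < x v) ∧ ∑ v, x v ^ 2 = 1 ∧
      (∀ v, ∑ u, G.adjMatrix ℝ v u * x u = l * x v) ∧ (∀ u v, E l u v = x u * x v) ∧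
      (∀ z : V → ℝ, z ⬝ᵥ (G.adjMatrix ℝ *ᵥ z) ≤ l * (z ⬝ᵥ z)) := by
  classical
  haveI : Nonempty V := hG.nonempty
  set A := G.adjMatrix ℝ with hAdef
  set s' := s.filter (fun θ => E θ ≠ 0) with hs'
  have hne : s'.Nonempty := by
    by_contra hcon
    rw [Finset.not_nonempty_iff_eq_empty, hs', Finset.filter_eq_empty_iff] at hcon
    have : ∑ θ ∈ s, E θ = 0 := Finset.sum_eq_zero fun θ hθ => by simpa using hcon hθ
    rw [h.sum_one] at this
    exact one_ne_zero this
  set l := s'.max' hne with hl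
  have hls' : l ∈ s' := s'.max'_mem hne
  have hls : l ∈ s := (Finset.mem_filter.1 hls').1
  have hlE : E l ≠ 0 := (Finset.mem_filter.1 hls').2
  have hle : ∀ θ ∈ s, E θ ≠ 0 → θ ≤ l := fun θ hθ h0 =>
    s'.le_max' θ (Finset.mem_filter.2 ⟨hθ, h0⟩)
  have hterm : ∀ z : V → ℝ, ∀ θ ∈ s, 0 ≤ (l - θ) * ((E θ *ᵥ z) ⬝ᵥ (E θ *ᵥ z)) := by
    intro z θ hθ
    by_cases h0 : E θ = 0
    · rw [h0, zero_mulVec]; simp
    · exact mul_nonneg (sub_nonneg.2 (hle θ hθ h0)) (dot_self_nonneg _)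
  have hdiff : ∀ z : V → ℝ, l * (z ⬝ᵥ z) - z ⬝ᵥ (A *ᵥ z) =
      ∑ θ ∈ s, (l - θ) * ((E θ *ᵥ z) ⬝ᵥ (E θ *ᵥ z)) := by
    intro z
    rw [norm_eq h z, form_eq h z, Finset.mul_sum, ← Finset.sum_sub_distrib]
    exact Finset.sum_congr rfl fun θ _ => by ring
  have hray : ∀ z : V → ℝ, z ⬝ᵥ (A *ᵥ z) ≤ l * (z ⬝ᵥ z) := by
    intro z
    have := hdiff z
    have h2 := Finset.sum_nonneg (hterm z)
    linarith
  have hgap : ∀ z : V → ℝ, l * (z ⬝ᵥ z) ≤ z ⬝ᵥ (A *ᵥ z) → E l *ᵥ z = z := by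
    intro z hz
    have h1 := hdiff z
    have h2 : ∑ θ ∈ s, (l - θ) * ((E θ *ᵥ z) ⬝ᵥ (E θ *ᵥ z)) = 0 :=
      le_antisymm (by linarith) (Finset.sum_nonneg (hterm z))
    have h3 := (Finset.sum_eq_zero_iff_of_nonneg (hterm z)).1 h2
    have h4 : ∀ θ ∈ s, θ ≠ l → E θ *ᵥ z = 0 := by
      intro θ hθ hne
      rcases mul_eq_zero.1 (h3 θ hθ) with h5 | h5
      · exact absurd (by linarith) hne
      · exact dotProduct_self_eq_zero.1 h5
    have h6 := sum_mulVec_eq h z
    rw [Finset.sum_eq_single l (fun θ hθ hne => h4 θ hθ hne) (fun hn => absurd hls hn)] at h6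
    exact h6
  have hAz : ∀ z : V → ℝ, E l *ᵥ z = z → A *ᵥ z = l • z := by
    intro z hz
    calc A *ᵥ z = A *ᵥ (E l *ᵥ z) := by rw [hz]
      _ = (A * E l) *ᵥ z := by rw [mulVec_mulVec]
      _ = l • (E l *ᵥ z) := by rw [mul_E h hls, smul_mulVec]
      _ = l • z := by rw [hz]
  have hA0 : ∀ u v, 0 ≤ A u v := by
    intro u v
    rw [hAdef, SimpleGraph.adjMatrix_apply]
    split_ifs <;> norm_num
  have habs : ∀ z : V → ℝ, E l *ᵥ z = z → E l *ᵥ (fun v => |z v|) = fun v => |z v| := by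
    intro z hz
    apply hgap
    have e1 : (fun v => |z v|) ⬝ᵥ (fun v => |z v|) = z ⬝ᵥ z := by
      simp only [dotProduct]
      exact Finset.sum_congr rfl fun v _ => abs_mul_abs_self (z v)
    rw [e1]
    have e2 : l * (z ⬝ᵥ z) = z ⬝ᵥ (A *ᵥ z) := by rw [hAz z hz, dotProduct_smul, smul_eq_mul]
    rw [e2]
    simp only [dotProduct, mulVec]
    refine Finset.sum_le_sum fun v _ => ?_
    rw [Finset.mul_sum, Finset.mul_sum]
    refine Finset.sum_le_sum fun u _ => ?_
    have q1 : z v * z u ≤ |z v| * |z u| := by rw [← abs_mul]; exact le_abs_self _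
    have q2 := mul_le_mul_of_nonneg_left q1 (hA0 v u)
    calc z v * (A v u * z u) = A v u * (z v * z u) := by ring
      _ ≤ A v u * (|z v| * |z u|) := q2
      _ = |z v| * (A v u * |z u|) := by ring
  have hvan : ∀ z : V → ℝ, E l *ᵥ z = z → ∀ u, z u = 0 → z = 0 := by
    intro z hz u hu
    have h1 := hAz _ (habs z hz)
    have hstep : ∀ a b : V, G.Adj a b → z a = 0 → z b = 0 := by
      intro a b hab ha
      have h2 := congrFun h1 a
      simp only [mulVec, dotProduct, Pi.smul_apply, smul_eq_mul, ha, abs_zero, mul_zero] at h2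
      have h3 := (Finset.sum_eq_zero_iff_of_nonneg
        (fun w _ => mul_nonneg (hA0 a w) (abs_nonneg (z w)))).1 h2 b (mem_univ b)
      rw [hAdef, SimpleGraph.adjMatrix_apply, if_pos hab, one_mul] at h3
      exact abs_eq_zero.1 h3
    funext w
    obtain ⟨p⟩ := hG.preconnected u w
    have hw : ∀ (a b : V), G.Walk a b → z a = 0 → z b = 0 := by
      intro a b p
      induction p with
      | nil => exact fun h => h
      | cons hab _ ih => exact fun h => ih (hstep _ _ hab h)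
    exact hw u w p hu
  -- a nonzero vector in the range
  obtain ⟨i, j, hij⟩ : ∃ i j, E l i j ≠ 0 := by
    by_contra hcon
    push Not at hcon
    exact hlE (by ext i j; exact hcon i j)
  set z : V → ℝ := E l *ᵥ Pi.single j 1 with hz
  have hzE : E l *ᵥ z = z := by rw [hz, mulVec_mulVec, h.idem l hls]
  have hzi : z i = E l i j := by rw [hz]; simp
  set y : V → ℝ := fun v => |z v| with hy
  have hyE : E l *ᵥ y = y := habs z hzE
  have hy0 : ∀ v, 0 < y v := by
    intro v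
    rcases (abs_nonneg (z v)).lt_or_eq with h1 | h1
    · exact h1
    · exfalso
      have h2 : z v = 0 := abs_eq_zero.1 h1.symm
      have h3 := hvan z hzE v h2
      apply hij
      rw [← hzi, h3]; rfl
  set N := Real.sqrt (y ⬝ᵥ y) with hN
  have hyy : 0 < y ⬝ᵥ y := by
    simp only [dotProduct]
    exact Finset.sum_pos (fun v _ => mul_pos (hy0 v) (hy0 v)) Finset.univ_nonempty
  have hN0 : 0 < N := Real.sqrt_pos.2 hyy
  set x : V → ℝ := (1 / N) • y with hx
  have hxE : E l *ᵥ x = x := by rw [hx, mulVec_smul, hyE]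
  have hx0 : ∀ v, 0 < x v := by
    intro v
    rw [hx, Pi.smul_apply, smul_eq_mul]
    exact mul_pos (one_div_pos.2 hN0) (hy0 v)
  have hxx : x ⬝ᵥ x = 1 := by
    rw [hx, smul_dotProduct, dotProduct_smul, smul_eq_mul, smul_eq_mul]
    have : N * N = y ⬝ᵥ y := Real.mul_self_sqrt hyy.le
    rw [← this]
    field_simp
  refine ⟨l, hls, x, hx0, ?_, ?_, ?_, hray⟩
  · rw [← hxx]
    simp only [dotProduct]
    exact Finset.sum_congr rfl fun v _ => sq (x v)
  · intro v
    have := congrFun (hAz x hxE) v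
    simpa [mulVec, dotProduct] using this
  · intro u v
    set w : V → ℝ := E l *ᵥ Pi.single v 1 - (x v) • x with hw
    have hwE : E l *ᵥ w = w := by
      rw [hw, mulVec_sub, mulVec_smul, hxE, mulVec_mulVec, h.idem l hls]
    set t := w v / x v with ht
    have h1 : w - t • x = 0 := by
      apply hvan _ _ v
      · rw [Pi.sub_apply, Pi.smul_apply, smul_eq_mul, ht, div_mul_cancel₀ _ (hx0 v).ne', sub_self]
      · rw [mulVec_sub, mulVec_smul, hwE, hxE]
    have h2 : w = t • x := sub_eq_zero.1 h1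
    have h3 : x ⬝ᵥ w = 0 := by
      rw [hw, dotProduct_sub, dotProduct_smul, hxx, smul_eq_mul, mul_one]
      have : x ⬝ᵥ (E l *ᵥ Pi.single v 1) = x v := by
        rw [dotProduct_mulVec, ← mulVec_transpose, h.symm l hls, hxE]
        simp
      rw [this, sub_self]
    have h4 : t = 0 := by
      rw [h2, dotProduct_smul, hxx, smul_eq_mul, mul_one] at h3
      exact h3
    have h5 : w u = 0 := by rw [h2, h4]; simp
    rw [hw] at h5
    simp only [Pi.sub_apply, Pi.smul_apply, smul_eq_mul] at h5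
    have h6 : (E l *ᵥ Pi.single v 1) u = E l u v := by simp
    rw [h6] at h5
    linarith

/-! ### The main inequality -/

section Main

variable {A : Matrix V V ℝ} {s : Finset ℝ} {E : ℝ → Matrix V V ℝ} (h : IsSpectral A s E)

include h

lemma diag_eq {θ : ℝ} (hθ : θ ∈ s) (v : V) : E θ v v = ∑ u, E θ v u ^ 2 := by
  have h1 : (E θ * E θ) v v = E θ v v := by rw [h.idem θ hθ]
  rw [← h1, Matrix.mul_apply]
  refine Finset.sum_congr rfl fun u _ => ?_
  have h2 : E θ u v = E θ v u := by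
    have := congrFun (congrFun (h.symm θ hθ) v) u
    simpa using this
  rw [h2, sq]

lemma diag_nonneg {θ : ℝ} (hθ : θ ∈ s) (v : V) : 0 ≤ E θ v v := by
  rw [diag_eq h hθ v]; exact Finset.sum_nonneg fun u _ => sq_nonneg _

lemma one_le_trace {θ : ℝ} (hθ : θ ∈ s) (h0 : E θ ≠ 0) : 1 ≤ ∑ v, E θ v v := by
  obtain ⟨i, j, hij⟩ : ∃ i j, E θ i j ≠ 0 := by
    by_contra hcon
    push Not at hcon
    exact h0 (by ext i j; exact hcon i j)
  set z : V → ℝ := E θ *ᵥ Pi.single j 1 with hz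
  have hzE : E θ *ᵥ z = z := by rw [hz, mulVec_mulVec, h.idem θ hθ]
  have hzi : z i = E θ i j := by rw [hz]; simp
  have hpos : 0 < ∑ v, z v ^ 2 := by
    apply Finset.sum_pos'
    · intro v _; exact sq_nonneg _
    · exact ⟨i, mem_univ i, by rw [hzi]; positivity⟩
  have h1 : ∀ v, z v ^ 2 ≤ E θ v v * ∑ u, z u ^ 2 := by
    intro v
    have h2 : z v = ∑ u, E θ v u * z u := by
      conv_lhs => rw [← hzE]
      rfl
    rw [diag_eq h hθ v]
    conv_lhs => rw [h2]
    exact Finset.sum_mul_sq_le_sq_mul_sq _ _ _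
  have h3 : ∑ v, z v ^ 2 ≤ (∑ v, E θ v v) * ∑ u, z u ^ 2 := by
    rw [Finset.sum_mul]; exact Finset.sum_le_sum fun v _ => h1 v
  by_contra hcon
  push Not at hcon
  nlinarith

lemma sum_diag (v : V) : ∑ θ ∈ s, E θ v v = 1 := by
  have := congrFun (congrFun h.sum_one v) v
  rw [Matrix.sum_apply] at this
  rw [this, Matrix.one_apply_eq]

lemma sum_mul_diag (v : V) : ∑ θ ∈ s, θ * E θ v v = A v v := by
  conv_rhs => rw [h.decomp]
  rw [Matrix.sum_apply]
  rfl

lemma sum_sq_mul_diag (v : V) : ∑ θ ∈ s, θ ^ 2 * E θ v v = (A * A) v v := by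
  have h0 : A * A = A * ∑ θ ∈ s, θ • E θ := congrArg (fun M => A * M) h.decomp
  have : A * A = ∑ θ ∈ s, (θ ^ 2) • E θ := by
    rw [h0, Finset.mul_sum]
    refine Finset.sum_congr rfl fun θ hθ => ?_
    rw [mul_smul_comm, mul_E h hθ, smul_smul, sq]
  rw [this, Matrix.sum_apply]
  rfl

end Main

/-- An identity for weighted sums over pairs. -/
lemma pair_identity (t : Finset ℝ) (p : ℝ → ℝ) :
    ∑ θ ∈ t, ∑ θ' ∈ t, p θ * p θ' * (θ - θ') ^ 2 =
      2 * ((∑ θ ∈ t, p θ) * (∑ θ ∈ t, θ ^ 2 * p θ) - (∑ θ ∈ t, θ * p θ) ^ 2) := by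
  have e1 : (∑ θ ∈ t, p θ) * (∑ θ ∈ t, θ ^ 2 * p θ) =
      ∑ θ ∈ t, ∑ θ' ∈ t, p θ * (θ' ^ 2 * p θ') := Finset.sum_mul_sum _ _ _ _
  have e2 : (∑ θ ∈ t, θ ^ 2 * p θ) * (∑ θ ∈ t, p θ) =
      ∑ θ ∈ t, ∑ θ' ∈ t, (θ ^ 2 * p θ) * p θ' := Finset.sum_mul_sum _ _ _ _
  have e3 : (∑ θ ∈ t, θ * p θ) * (∑ θ ∈ t, θ * p θ) =
      ∑ θ ∈ t, ∑ θ' ∈ t, (θ * p θ) * (θ' * p θ') := Finset.sum_mul_sum _ _ _ _
  have : 2 * ((∑ θ ∈ t, p θ) * (∑ θ ∈ t, θ ^ 2 * p θ) - (∑ θ ∈ t, θ * p θ) ^ 2) =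
      (∑ θ ∈ t, p θ) * (∑ θ ∈ t, θ ^ 2 * p θ) + (∑ θ ∈ t, θ ^ 2 * p θ) * (∑ θ ∈ t, p θ) -
      2 * ((∑ θ ∈ t, θ * p θ) * (∑ θ ∈ t, θ * p θ)) := by ring
  rw [this, e1, e2, e3, Finset.mul_sum, ← Finset.sum_add_distrib, ← Finset.sum_sub_distrib]
  refine Finset.sum_congr rfl fun θ _ => ?_
  rw [Finset.mul_sum, ← Finset.sum_add_distrib, ← Finset.sum_sub_distrib]
  exact Finset.sum_congr rfl fun θ' _ => by ring

theorem trace_le (G : SimpleGraph V) [DecidableRel G.Adj] (hG : G.Connected) {s : Finset ℝ}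
    {E : ℝ → Matrix V V ℝ} (h : IsSpectral (G.adjMatrix ℝ) s E) :
    (∑ θ ∈ s, (E θ).hadamard (E θ)).trace ≤
      ((Fintype.card V : ℝ) ^ 2 - 2 * Fintype.card V + 2) / Fintype.card V := by
  classical
  haveI : Nonempty V := hG.nonempty
  set A := G.adjMatrix ℝ with hAdef
  set n : ℝ := (Fintype.card V : ℝ) with hn
  have htr : (∑ θ ∈ s, (E θ).hadamard (E θ)).trace = ∑ v, ∑ θ ∈ s, (E θ v v) ^ 2 := by
    rw [Matrix.trace]
    refine Finset.sum_congr rfl fun v _ => ?_
    rw [Matrix.diag_apply, Matrix.sum_apply]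
    exact Finset.sum_congr rfl fun θ _ => by rw [Matrix.hadamard_apply, sq]
  rw [htr]
  rcases Nat.lt_or_ge (Fintype.card V) 2 with hc | hc
  · -- one vertex
    have hc1 : Fintype.card V = 1 := by
      have := Fintype.card_pos_iff.2 ‹Nonempty V›; omega
    have hn1 : n = 1 := by rw [hn, hc1]; norm_num
    rw [hn1]
    have h1 : ∀ v, ∑ θ ∈ s, (E θ v v) ^ 2 ≤ 1 := by
      intro v
      rw [← sum_diag h v]
      refine Finset.sum_le_sum fun θ hθ => ?_
      have q1 := diag_nonneg h hθ v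
      have q2 : E θ v v ≤ 1 := by
        rw [← sum_diag h v]
        exact Finset.single_le_sum (f := fun θ => E θ v v) (fun θ hθ => diag_nonneg h hθ v) hθ
      nlinarith
    calc ∑ v, ∑ θ ∈ s, (E θ v v) ^ 2 ≤ ∑ v : V, (1 : ℝ) := Finset.sum_le_sum fun v _ => h1 v
      _ = 1 := by rw [Finset.sum_const, Finset.card_univ, hc1]; norm_num
      _ ≤ _ := by norm_num
  haveI : Nontrivial V := Fintype.one_lt_card_iff_nontrivial.1 hc
  have hn2 : (2 : ℝ) ≤ n := by rw [hn]; exact_mod_cast hc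
  have hn0 : 0 < n := by linarith
  obtain ⟨l, hls, x, hx0, hxx, hev, hEl, hray⟩ := perron G hG h
  have hx : ∀ v, 0 ≤ x v := fun v => (hx0 v).le
  have hA01 : ∀ u v, A u v = 0 ∨ A u v = 1 := by
    intro u v
    rw [hAdef, SimpleGraph.adjMatrix_apply]
    split_ifs
    · right; rfl
    · left; rfl
  have hAs : ∀ u v, A u v = A v u := by
    intro u v
    rw [hAdef, SimpleGraph.adjMatrix_apply, SimpleGraph.adjMatrix_apply]
    simp only [G.adj_comm u v]
  have hA0 : ∀ v, A v v = 0 := by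
    intro v
    rw [hAdef, SimpleGraph.adjMatrix_apply]
    simp
  have hdegA : ∀ v, ∑ u, A v u = (G.degree v : ℝ) := by
    intro v
    have := G.adjMatrix_mulVec_const_apply (α := ℝ) (a := 1) (v := v)
    simp only [mulVec, dotProduct, Function.const_apply, mul_one] at this
    exact this
  have hdeg : ∀ v, 1 ≤ ∑ u, A v u := by
    intro v
    rw [hdegA v]
    have := hG.preconnected.degree_pos_of_nontrivial v
    exact_mod_cast this
  have hm : 2 * (n - 1) ≤ ∑ v, ∑ u, A v u := by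
    have e1 := G.sum_degrees_eq_twice_card_edges
    have e2 := hG.card_vert_le_card_edgeSet_add_one
    rw [Nat.card_eq_fintype_card, Nat.card_eq_fintype_card, ← SimpleGraph.edgeFinset_card] at e2
    have e3 : ∑ v, ∑ u, A v u = ((∑ v, G.degree v : ℕ) : ℝ) := by
      rw [Nat.cast_sum]; exact Finset.sum_congr rfl fun v _ => hdegA v
    rw [e3, e1, hn]
    have : ((Fintype.card V : ℕ) : ℝ) ≤ (G.edgeFinset.card : ℝ) + 1 := by exact_mod_cast e2
    push_cast
    linarith
  have hray1 : ∑ v, ∑ u, A v u ≤ l * n := by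
    have := hray (fun _ => 1)
    simp only [mulVec, dotProduct, one_mul, mul_one, Finset.sum_const, Finset.card_univ,
      nsmul_eq_mul] at this
    exact this
  have hl1 : 2 * (n - 1) ≤ l * n := hm.trans hray1
  have hl0 : 0 < l := by
    by_contra hcon
    push Not at hcon
    nlinarith
  have hl32 : 4 ≤ Fintype.card V → 3 / 2 ≤ l := by
    intro h4
    have : (4 : ℝ) ≤ n := by rw [hn]; exact_mod_cast h4
    by_contra hcon
    push Not at hcon
    nlinarith
  obtain ⟨c, -, hcmax⟩ := Finset.exists_max_image univ x Finset.univ_nonempty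
  have hcmax' : ∀ v, x v ≤ x c := fun v => hcmax v (mem_univ v)
  have hhalf := sq_le_half A hA01 hAs hA0 x hx hxx l hev hl0 c
  have hvec := vec_ge_two x hx hxx c hcmax' hhalf hc
    (fun h4 e he => pair_le A hA01 hAs hA0 x hx hxx l hev (hl32 h4) c e he)
  have hD := D_le A hA01 hAs hA0 x hx hxx l hev c hcmax' hl0
  have hH := hong A hA01 hAs hA0 x hxx l hev hdeg
  set D := ∑ v, (∑ u, A v u) * x v ^ 2 with hDdef
  set S := ∑ v, (x v ^ 2) ^ 2 with hSdef
  set m2 := ∑ v, ∑ u, A v u with hm2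
  set τ := m2 - l ^ 2 with hτ
  rw [← hn] at hH hvec
  have hτ1 : n - 1 ≤ τ := by linarith
  have hτ0 : 0 < τ := by linarith
  have hD0 : 0 ≤ D := Finset.sum_nonneg fun v _ =>
    mul_nonneg (by linarith [hdeg v]) (sq_nonneg _)
  have hDS : D ≤ (n - 1) * (1 + 2 / n - 2 * S) := by
    have : (n - 1) * (1 + 2 / n) = n + 1 - 2 / n := by field_simp; ring
    have e : (n - 1) * (1 + 2 / n - 2 * S) = n + 1 - 2 / n - 2 * (n - 1) * S := by
      rw [mul_sub, this]; ring
    rw [e]; linarith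
  have hpos : 0 ≤ 1 + 2 / n - 2 * S := by
    have h1 : 0 ≤ (n - 1) * (1 + 2 / n - 2 * S) := hD0.trans hDS
    exact nonneg_of_mul_nonneg_right h1 (by linarith)
  have hDτ : D ≤ τ * (1 + 2 / n - 2 * S) :=
    hDS.trans (mul_le_mul_of_nonneg_right hτ1 hpos)
  -- the other projections
  set t := s.erase l with ht
  have hts : ∀ θ ∈ t, θ ∈ s := fun θ hθ => mem_of_mem_erase hθ
  have hsplit : ∀ f : ℝ → ℝ, ∑ θ ∈ s, f θ = f l + ∑ θ ∈ t, f θ := fun f =>
    (Finset.add_sum_erase s f hls).symm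
  have hElv : ∀ v, E l v v = x v ^ 2 := fun v => by rw [hEl, sq]
  have hsq : ∑ θ ∈ s, θ ^ 2 * ∑ v, E θ v v = m2 := by
    calc ∑ θ ∈ s, θ ^ 2 * ∑ v, E θ v v = ∑ θ ∈ s, ∑ v, θ ^ 2 * E θ v v :=
          Finset.sum_congr rfl fun θ _ => by rw [Finset.mul_sum]
      _ = ∑ v, ∑ θ ∈ s, θ ^ 2 * E θ v v := Finset.sum_comm
      _ = ∑ v, ∑ u, A v u := by
          refine Finset.sum_congr rfl fun v _ => ?_
          rw [sum_sq_mul_diag h v, Matrix.mul_apply]
          refine Finset.sum_congr rfl fun u _ => ?_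
          rw [hAs u v]
          rcases hA01 v u with q | q <;> rw [q] <;> norm_num
  have hpairs : ∀ θ ∈ t, ∀ θ' ∈ t, ∀ v, θ ≠ θ' →
      E θ v v * E θ' v v * (θ - θ') ^ 2 ≤ 2 * τ * (E θ v v * E θ' v v) := by
    intro θ hθ θ' hθ' v hne
    by_cases h1 : E θ = 0
    · rw [h1]; simp
    by_cases h2 : E θ' = 0
    · rw [h2]; simp
    have h3 := one_le_trace h (hts θ hθ) h1
    have h4 := one_le_trace h (hts θ' hθ') h2
    have h5 : θ ^ 2 + θ' ^ 2 ≤ τ := by
      have e1 := hsplit (fun θ => θ ^ 2 * ∑ v, E θ v v)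
      rw [hsq] at e1
      have e2 : ∑ v, E l v v = 1 := by rw [← hxx]; exact Finset.sum_congr rfl fun v _ => hElv v
      simp only [e2, mul_one] at e1
      have e3 := Finset.add_sum_erase t (fun θ => θ ^ 2 * ∑ v, E θ v v) hθ
      have hθ'2 : θ' ∈ t.erase θ := mem_erase.2 ⟨hne.symm, hθ'⟩
      have e4 : θ' ^ 2 * ∑ v, E θ' v v ≤ ∑ η ∈ t.erase θ, η ^ 2 * ∑ v, E η v v :=
        Finset.single_le_sum (f := fun η => η ^ 2 * ∑ v, E η v v)
          (fun η hη => mul_nonneg (sq_nonneg _) (Finset.sum_nonneg fun v _ =>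
            diag_nonneg h (hts η (mem_of_mem_erase hη)) v)) hθ'2
      have e5 : θ ^ 2 ≤ θ ^ 2 * ∑ v, E θ v v := le_mul_of_one_le_right (sq_nonneg _) h3
      have e6 : θ' ^ 2 ≤ θ' ^ 2 * ∑ v, E θ' v v := le_mul_of_one_le_right (sq_nonneg _) h4
      linarith
    have h6 : (θ - θ') ^ 2 ≤ 2 * τ := by nlinarith [sq_nonneg (θ + θ')]
    have h7 : 0 ≤ E θ v v * E θ' v v :=
      mul_nonneg (diag_nonneg h (hts θ hθ) v) (diag_nonneg h (hts θ' hθ') v)
    calc E θ v v * E θ' v v * (θ - θ') ^ 2 ≤ E θ v v * E θ' v v * (2 * τ) :=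
          mul_le_mul_of_nonneg_left h6 h7
      _ = _ := by ring
  have hvert : ∀ v, τ * ∑ θ ∈ t, (E θ v v) ^ 2 ≤
      τ * (1 - x v ^ 2) ^ 2 - ((∑ u, A v u) * (1 - x v ^ 2) - l ^ 2 * x v ^ 2) := by
    intro v
    set p : ℝ → ℝ := fun θ => E θ v v with hp
    have q1 : ∑ θ ∈ t, p θ = 1 - x v ^ 2 := by
      have := hsplit p
      rw [sum_diag h v] at this
      simp only [hp, hElv] at this ⊢
      linarith
    have q2 : ∑ θ ∈ t, θ * p θ = - (l * x v ^ 2) := by
      have := hsplit (fun θ => θ * p θ)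
      rw [sum_mul_diag h v, hA0 v] at this
      simp only [hp, hElv] at this ⊢
      linarith
    have q3 : ∑ θ ∈ t, θ ^ 2 * p θ = (∑ u, A v u) - l ^ 2 * x v ^ 2 := by
      have := hsplit (fun θ => θ ^ 2 * p θ)
      rw [sum_sq_mul_diag h v, Matrix.mul_apply] at this
      have e : ∑ u, A v u * A u v = ∑ u, A v u := by
        refine Finset.sum_congr rfl fun u _ => ?_
        rw [hAs u v]
        rcases hA01 v u with q | q <;> rw [q] <;> norm_num
      rw [e] at this
      simp only [hp, hElv] at this ⊢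
      linarith
    have q4 := pair_identity t p
    rw [q1, q2, q3] at q4
    have q5 : ∑ θ ∈ t, ∑ θ' ∈ t, p θ * p θ' * (θ - θ') ^ 2 ≤
        2 * τ * ((∑ θ ∈ t, p θ) ^ 2 - ∑ θ ∈ t, p θ ^ 2) := by
      have e1 : (∑ θ ∈ t, p θ) ^ 2 - ∑ θ ∈ t, p θ ^ 2 =
          ∑ θ ∈ t, ∑ θ' ∈ t, (p θ * p θ' - if θ = θ' then p θ ^ 2 else 0) := by
        rw [sq, Finset.sum_mul_sum, ← Finset.sum_sub_distrib]
        refine Finset.sum_congr rfl fun θ hθ => ?_
        rw [Finset.sum_sub_distrib, Finset.sum_ite_eq, if_pos hθ]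
      rw [e1, Finset.mul_sum]
      refine Finset.sum_le_sum fun θ hθ => ?_
      rw [Finset.mul_sum]
      refine Finset.sum_le_sum fun θ' hθ' => ?_
      by_cases hne : θ = θ'
      · subst hne; simp [sq]
      · rw [if_neg hne, sub_zero]
        exact hpairs θ hθ θ' hθ' v hne
    rw [q4, q1] at q5
    linarith
  have hfin : τ * ∑ v, ∑ θ ∈ s, (E θ v v) ^ 2 ≤ τ * (n - 2 + 2 / n) := by
    have f1 : ∑ v, ∑ θ ∈ s, (E θ v v) ^ 2 = S + ∑ v, ∑ θ ∈ t, (E θ v v) ^ 2 := by
      rw [hSdef, ← Finset.sum_add_distrib]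
      refine Finset.sum_congr rfl fun v _ => ?_
      rw [hsplit (fun θ => (E θ v v) ^ 2), hElv]
    have f2 : τ * ∑ v, ∑ θ ∈ t, (E θ v v) ^ 2 ≤ τ * (n - 2 + S) - (m2 - D - l ^ 2) := by
      rw [Finset.mul_sum]
      refine (Finset.sum_le_sum fun v _ => hvert v).trans (le_of_eq ?_)
      have g1 : ∑ v, (1 - x v ^ 2) ^ 2 = n - 2 + S := by
        have : ∀ v, (1 - x v ^ 2) ^ 2 = 1 - 2 * x v ^ 2 + (x v ^ 2) ^ 2 := fun v => by ring
        rw [Finset.sum_congr rfl fun v _ => this v, Finset.sum_add_distrib,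
          Finset.sum_sub_distrib, ← Finset.mul_sum, hxx, Finset.sum_const, Finset.card_univ,
          nsmul_eq_mul, mul_one]
        ring
      have g2 : ∑ v, ((∑ u, A v u) * (1 - x v ^ 2) - l ^ 2 * x v ^ 2) = m2 - D - l ^ 2 := by
        have : ∀ v, (∑ u, A v u) * (1 - x v ^ 2) - l ^ 2 * x v ^ 2 =
            (∑ u, A v u) - (∑ u, A v u) * x v ^ 2 - l ^ 2 * x v ^ 2 := fun v => by ring
        rw [Finset.sum_congr rfl fun v _ => this v, Finset.sum_sub_distrib,
          Finset.sum_sub_distrib, ← Finset.mul_sum, hxx, mul_one]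
      rw [Finset.sum_sub_distrib, ← Finset.mul_sum, g1, g2]
    rw [f1, mul_add]
    have f3 : m2 - D - l ^ 2 = τ - D := by rw [hτ]; ring
    rw [f3] at f2
    nlinarith
  have hfin2 := le_of_mul_le_mul_left hfin hτ0
  have : (n ^ 2 - 2 * n + 2) / n = n - 2 + 2 / n := by field_simp
  rw [this]
  exact hfin2

/-- Every real symmetric matrix has a spectral decomposition. -/
lemma exists_isSpectral (A : Matrix V V ℝ) (hA : A.IsHermitian) :
    ∃ s E, IsSpectral A s E := by
  set U : Matrix V V ℝ := (hA.eigenvectorUnitary : Matrix V V ℝ) with hU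
  have hUU : U * Uᵀ = 1 := by
    have := Unitary.mul_star_self_of_mem hA.eigenvectorUnitary.2
    rwa [star_eq_conjTranspose, conjTranspose_eq_transpose_of_trivial] at this
  have hUU' : Uᵀ * U = 1 := by
    have := Unitary.star_mul_self_of_mem hA.eigenvectorUnitary.2
    rwa [star_eq_conjTranspose, conjTranspose_eq_transpose_of_trivial] at this
  have hAU : A = U * diagonal hA.eigenvalues * Uᵀ := by
    have := hA.spectral_theorem
    rw [Unitary.conjStarAlgAut_apply] at this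
    rw [star_eq_conjTranspose, conjTranspose_eq_transpose_of_trivial] at this
    simpa using this
  set d : ℝ → Matrix V V ℝ := fun θ => diagonal (fun i => if hA.eigenvalues i = θ then 1 else 0)
    with hd
  refine ⟨univ.image hA.eigenvalues, fun θ => U * d θ * Uᵀ, ?_, ?_, ?_, ?_, ?_⟩
  · intro θ _
    simp only [transpose_mul, transpose_transpose, hd, diagonal_transpose, Matrix.mul_assoc]
  · intro θ _
    have : d θ * d θ = d θ := by
      rw [hd]; simp only [diagonal_mul_diagonal]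
      congr 1; funext i; split_ifs <;> norm_num
    calc U * d θ * Uᵀ * (U * d θ * Uᵀ) = U * (d θ * (Uᵀ * U) * d θ) * Uᵀ := by
          simp only [Matrix.mul_assoc]
      _ = U * d θ * Uᵀ := by rw [hUU', Matrix.mul_one, this]
  · intro θ _ θ' _ hne
    have : d θ * d θ' = 0 := by
      rw [hd]; simp only [diagonal_mul_diagonal]
      rw [diagonal_eq_zero]
      funext i
      by_cases h : hA.eigenvalues i = θ
      · rw [if_neg (fun h' => hne (h.symm.trans h'))]; simp
      · rw [if_neg h]; simp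
    calc U * d θ * Uᵀ * (U * d θ' * Uᵀ) = U * (d θ * (Uᵀ * U) * d θ') * Uᵀ := by
          simp only [Matrix.mul_assoc]
      _ = 0 := by rw [hUU', Matrix.mul_one, this]; simp
  · have : ∑ θ ∈ univ.image hA.eigenvalues, d θ = 1 := by
      ext i j
      rw [Matrix.sum_apply]
      by_cases hij : i = j
      · subst hij
        rw [one_apply_eq]
        simp only [hd, diagonal_apply_eq]
        rw [Finset.sum_ite_eq, if_pos (mem_image_of_mem _ (mem_univ i))]
      · rw [one_apply_ne hij]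
        exact Finset.sum_eq_zero fun θ _ => by rw [hd]; exact diagonal_apply_ne _ hij
    rw [← Finset.sum_mul, ← Finset.mul_sum, this, Matrix.mul_one, hUU]
  · have : ∑ θ ∈ univ.image hA.eigenvalues, θ • d θ = diagonal hA.eigenvalues := by
      ext i j
      rw [Matrix.sum_apply]
      by_cases hij : i = j
      · subst hij
        rw [diagonal_apply_eq]
        simp only [hd, Matrix.smul_apply, diagonal_apply_eq, smul_eq_mul, mul_ite, mul_one,
          mul_zero]
        rw [Finset.sum_ite_eq, if_pos (mem_image_of_mem _ (mem_univ i))]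
      · rw [diagonal_apply_ne _ hij]
        refine Finset.sum_eq_zero fun θ _ => ?_
        simp only [Matrix.smul_apply, hd, diagonal_apply_ne _ hij, smul_zero]
    refine hAU.trans ?_
    rw [← this, Finset.mul_sum, Finset.sum_mul]
    refine Finset.sum_congr rfl fun θ _ => ?_
    rw [mul_smul_comm, smul_mul_assoc]

/-- The trace of the average mixing matrix of a complete graph. -/
theorem trace_top [Nonempty V] {s : Finset ℝ} {E : ℝ → Matrix V V ℝ}
    (h : IsSpectral ((⊤ : SimpleGraph V).adjMatrix ℝ) s E) :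
    (∑ θ ∈ s, (E θ).hadamard (E θ)).trace =
      ((Fintype.card V : ℝ) ^ 2 - 2 * Fintype.card V + 2) / Fintype.card V := by
  classical
  set n : ℝ := (Fintype.card V : ℝ) with hn
  have hn0 : 0 < n := by rw [hn]; exact_mod_cast Fintype.card_pos
  have htr : (∑ θ ∈ s, (E θ).hadamard (E θ)).trace = ∑ v, ∑ θ ∈ s, (E θ v v) ^ 2 := by
    rw [Matrix.trace]
    refine Finset.sum_congr rfl fun v _ => ?_
    rw [Matrix.diag_apply, Matrix.sum_apply]
    exact Finset.sum_congr rfl fun θ _ => by rw [Matrix.hadamard_apply, sq]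
  have hcol : ∀ θ ∈ s, ∀ u v, (θ + 1) * E θ u v = ∑ w, E θ w v := by
    intro θ hθ u v
    have h1 := congrFun (congrFun (mul_E h hθ) u) v
    rw [Matrix.mul_apply, Matrix.smul_apply, smul_eq_mul] at h1
    have h2 : ∑ w, (⊤ : SimpleGraph V).adjMatrix ℝ u w * E θ w v = ∑ w, E θ w v - E θ u v := by
      rw [← Finset.add_sum_erase univ (fun w => E θ w v) (mem_univ u),
        ← Finset.add_sum_erase univ _ (mem_univ u)]
      have : ∑ w ∈ univ.erase u, (⊤ : SimpleGraph V).adjMatrix ℝ u w * E θ w v =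
          ∑ w ∈ univ.erase u, E θ w v := by
        refine Finset.sum_congr rfl fun w hw => ?_
        have hne : u ≠ w := (ne_of_mem_erase hw).symm
        rw [SimpleGraph.adjMatrix_apply, if_pos ((SimpleGraph.top_adj u w).2 hne), one_mul]
      rw [this]
      simp
    rw [h2] at h1
    linarith
  have hsym : ∀ θ ∈ s, ∀ u v, E θ u v = E θ v u := by
    intro θ hθ u v
    have := congrFun (congrFun (h.symm θ hθ) v) u
    simpa using this
  have hconst : ∀ θ ∈ s, θ ≠ -1 → ∀ u v w, E θ u v = E θ w w := by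
    intro θ hθ hne u v w
    have hne' : θ + 1 ≠ 0 := fun h' => hne (by linarith)
    have e1 : ∀ a b c, E θ a b = E θ c b := fun a b c =>
      mul_left_cancel₀ hne' ((hcol θ hθ a b).trans (hcol θ hθ c b).symm)
    rw [e1 u v w, hsym θ hθ w v, e1 v w w]
  have hvert : ∀ v, ∑ θ ∈ s, (E θ v v) ^ 2 = (1 - 1 / n) ^ 2 + 1 / n ^ 2 := by
    intro v
    set t := s.erase (-1) with ht
    have htsq : ∑ θ ∈ t, (E θ v v) ^ 2 = (1 / n) * ∑ θ ∈ t, E θ v v := by
      rw [Finset.mul_sum]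
      refine Finset.sum_congr rfl fun θ hθ => ?_
      have hθs := mem_of_mem_erase hθ
      have hθne := ne_of_mem_erase hθ
      have e1 := diag_eq h hθs v
      rw [Finset.sum_congr rfl fun u _ => by rw [hconst θ hθs hθne v u v], Finset.sum_const,
        Finset.card_univ, nsmul_eq_mul, ← hn] at e1
      field_simp
      linarith
    have hcolsum : ∑ θ ∈ s, ∑ u, E θ u v = 1 := by
      rw [Finset.sum_comm]
      have : ∀ u, ∑ θ ∈ s, E θ u v = (1 : Matrix V V ℝ) u v := by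
        intro u
        rw [← h.sum_one, Matrix.sum_apply]
      rw [Finset.sum_congr rfl fun u _ => this u]
      simp [Matrix.one_apply]
    have htcol : ∑ θ ∈ t, ∑ u, E θ u v = n * ∑ θ ∈ t, E θ v v := by
      rw [Finset.mul_sum]
      refine Finset.sum_congr rfl fun θ hθ => ?_
      rw [Finset.sum_congr rfl fun u _ => hconst θ (mem_of_mem_erase hθ) (ne_of_mem_erase hθ) u v v,
        Finset.sum_const, Finset.card_univ, nsmul_eq_mul]
    by_cases hm : (-1 : ℝ) ∈ s
    · have e1 := Finset.add_sum_erase s (fun θ => ∑ u, E θ u v) hm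
      have e0 : ∑ u, E (-1) u v = 0 := by
        have := hcol (-1) hm v v
        rw [← this]; ring
      rw [hcolsum] at e1
      simp only [e0, zero_add] at e1
      rw [htcol] at e1
      have e2 : ∑ θ ∈ t, E θ v v = 1 / n := by field_simp; linarith
      have e3 := Finset.add_sum_erase s (fun θ => E θ v v) hm
      rw [sum_diag h v] at e3
      simp only [← ht, e2] at e3
      rw [← Finset.add_sum_erase s (fun θ => (E θ v v) ^ 2) hm, ← ht, htsq, e2]
      have e4 : E (-1) v v = 1 - 1 / n := by linarith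
      simp only [e4]
      ring
    · have hts : t = s := Finset.erase_eq_of_notMem hm
      rw [hts] at htcol htsq
      rw [hcolsum, sum_diag h v] at htcol
      rw [htsq, sum_diag h v]
      have hn1 : n = 1 := by linarith
      rw [hn1]; norm_num
  rw [htr, Finset.sum_congr rfl fun v _ => hvert v, Finset.sum_const, Finset.card_univ,
    nsmul_eq_mul, ← hn]
  field_simp
  ring

/-- **Result.** Let `G` be a connected graph on the finite vertex type `V`, with `n = |V|`. Its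
adjacency matrix has a spectral decomposition `A = ∑ θ, θ • E θ`, and for every such
decomposition the trace of the average mixing matrix `∑ θ, E θ ∘ E θ` is at most
`(n² - 2n + 2)/n`; for the complete graph it is equal to `(n² - 2n + 2)/n`. -/
theorem result : ∀ (V : Type) [Fintype V] [DecidableEq V] (G : SimpleGraph V)
    [DecidableRel G.Adj], G.Connected →
    (∃ s E, IsSpectral (G.adjMatrix ℝ) s E) ∧
    (∀ s E, IsSpectral (G.adjMatrix ℝ) s E →
      (∑ θ ∈ s, (E θ).hadamard (E θ)).trace ≤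
        ((Fintype.card V : ℝ) ^ 2 - 2 * Fintype.card V + 2) / Fintype.card V) ∧
    (∀ s E, IsSpectral ((⊤ : SimpleGraph V).adjMatrix ℝ) s E →
      (∑ θ ∈ s, (E θ).hadamard (E θ)).trace =
        ((Fintype.card V : ℝ) ^ 2 - 2 * Fintype.card V + 2) / Fintype.card V) := by
  intro V _ _ G _ hG
  haveI : Nonempty V := hG.nonempty
  refine ⟨?_, fun s E h => trace_le G hG h, fun s E h => trace_top h⟩
  apply exists_isSpectral
  rw [Matrix.IsHermitian, conjTranspose_eq_transpose_of_trivial]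
  exact G.transpose_adjMatrix (α := ℝ)

end Pool.Agent.Results.MP_582e4a_co.AverageMixingTrace
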